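import Pool.Agent.H32.Semilat.Points

/-!
Infima and suprema of chains in `Pt D`.
-/

namespace Pool.Agent.H32.Semilat

open Set Topology Filter

variable {D : Data}

namespace Pt

/-- chains -/
def Ch (C : Set (Pt D)) : Prop := ∀ p ∈ C, ∀ q ∈ C, le p q ∨ le q p

/-- the infimum of a family -/
def infPt (C : Set (Pt D)) : Pt D where
  A := {i | ∃ c ∈ C, i ∈ c.A}
  I := ⟨{t | (∀ c ∈ C, t ∈ c.I) ∧ Bd D {i | ∃ c ∈ C, i ∈ c.A} t}, by
    rintro t t' htt ⟨h1, h2⟩
    exact ⟨fun c hc => c.I.lower htt (h1 c hc), h2.down htt⟩⟩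
  s := (∀ c ∈ C, c.s) ∧ ∃ m, ∀ i, (∃ c ∈ C, i ∈ c.A) → i < m
  fin := fun _ ht => ht.2
  full := by
    rintro ⟨h1, m, hm⟩
    ext t
    constructor
    · intro _; trivial
    · intro _
      refine ⟨fun c hc => ?_, m, fun i hi _ => hm i hi⟩
      rw [c.full (h1 c hc)]; trivial

lemma infPt_le {C : Set (Pt D)} {c : Pt D} (hc : c ∈ C) : le (infPt C) c :=
  ⟨fun _ hi => ⟨c, hc, hi⟩, fun _ ht => ht.1 c hc, fun hs => hs.1 c hc⟩

lemma le_infPt {C : Set (Pt D)} {w : Pt D} (hw : ∀ c ∈ C, le w c) : le w (infPt C) := by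
  have hA : {i | ∃ c ∈ C, i ∈ c.A} ⊆ w.A := by
    rintro i ⟨c, hc, hi⟩
    exact (hw c hc).1 hi
  refine ⟨hA, ?_, ?_⟩
  · intro t ht
    exact ⟨fun c hc => (hw c hc).2.1 ht, (w.fin t ht).mono_left hA⟩
  · intro hs
    refine ⟨fun c hc => (hw c hc).2.2 hs, ?_⟩
    obtain ⟨m, hm⟩ := bounded_of_forall (D := D) (A := w.A) (fun t => w.fin t (by
      rw [w.full hs]; trivial))
    exact ⟨m, fun i hi => hm i (hA hi)⟩

lemma infPt_closure {C : Set (Pt D)} (hne : C.Nonempty) (hC : Ch C) :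
    infPt C ∈ closure C := by
  apply mem_closure_of_tail C (fun a b => le b a) (fun a => le_refl a)
    (fun a b c h1 h2 => le_trans h2 h1) (fun a ha b hb => (hC b hb a ha)) hne
  intro U hU hz
  obtain ⟨c₀, hc₀⟩ := hne
  rcases hU with i | i | ⟨t, m⟩ | ⟨t, m⟩ | _ | _
  · obtain ⟨c0, hc0, hi⟩ := hz
    exact ⟨c0, hc0, fun c _ h => h.1 hi⟩
  · exact ⟨c₀, hc₀, fun c hc _ hi => hz ⟨c, hc, hi⟩⟩
  · exact ⟨c₀, hc₀, fun c hc _ => ⟨hz.1.1 c hc, fun i hi hq => hz.2 i ⟨c, hc, hi⟩ hq⟩⟩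
  · by_cases h1 : ∀ i ∈ (infPt C).A, i ∈ D.Q t → i < m
    · have h2 : ¬ ∀ c ∈ C, t ∈ c.I := by
        intro h
        exact hz ⟨⟨h, m, h1⟩, h1⟩
      push Not at h2
      obtain ⟨c0, hc0, ht⟩ := h2
      exact ⟨c0, hc0, fun c _ hle h => ht (hle.2.1 h.1)⟩
    · push Not at h1
      obtain ⟨i, ⟨c0, hc0, hi⟩, hq, hmi⟩ := h1
      refine ⟨c0, hc0, fun c _ hle h => ?_⟩
      have := h.2 i (hle.1 hi) hq
      omega
  · exact ⟨c₀, hc₀, fun c hc _ => hz.1 c hc⟩
  · obtain ⟨hs, hbr⟩ := hz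
    rcases hbr with htop | ⟨b, hb, h1, h2⟩
    · have hall : ∀ t, t ∈ (infPt C).I := by
        intro t; rw [htop]; trivial
      obtain ⟨m, hm⟩ := bounded_of_forall (D := D) (A := (infPt C).A)
        (fun t => (infPt C).fin t (hall t))
      have h3 : ¬ ∀ c ∈ C, c.s := fun h => hs ⟨h, m, hm⟩
      push Not at h3
      obtain ⟨c0, hc0, hs0⟩ := h3
      refine ⟨c0, hc0, fun c hc hle => ⟨fun h => hs0 (hle.2.2 h), Or.inl ?_⟩⟩
      rw [eq_top_iff]
      intro t _
      exact (hall t).1 c hc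
    · have h3 : ¬ ∀ c ∈ C, D.nx b ∈ c.I := by
        intro h
        apply h2
        refine ⟨h, ?_⟩
        obtain ⟨m, hm⟩ := h1.2
        refine ⟨m, ?_⟩
        rw [D.Q_nx b hb]
        exact hm
      push Not at h3
      obtain ⟨c0, hc0, hn⟩ := h3
      refine ⟨c0, hc0, fun c hc hle => ?_⟩
      have hn' : D.nx b ∉ c.I := fun h => hn (hle.2.1 h)
      refine ⟨fun h => hn' ?_, Or.inr ⟨b, hb, h1.1 c hc, hn'⟩⟩
      rw [c.full h]; trivial

/-- the supremum of a non-empty family -/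
def supPt (C : Set (Pt D)) : Pt D where
  A := {i | ∀ c ∈ C, i ∈ c.A}
  I := ⟨{t | ∃ c ∈ C, t ∈ c.I}, by
    rintro t t' htt ⟨c, hc, ht⟩
    exact ⟨c, hc, c.I.lower htt ht⟩⟩
  s := ∃ c ∈ C, c.s
  fin := by
    rintro t ⟨c, hc, ht⟩
    exact (c.fin t ht).mono_left (fun i hi => hi c hc)
  full := by
    rintro ⟨c, hc, hs⟩
    rw [eq_top_iff]
    intro t _
    refine ⟨c, hc, ?_⟩
    rw [c.full hs]; trivial

lemma le_supPt {C : Set (Pt D)} {c : Pt D} (hc : c ∈ C) : le c (supPt C) :=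
  ⟨fun _ hi => hi c hc, fun _ ht => ⟨c, hc, ht⟩, fun hs => ⟨c, hc, hs⟩⟩

lemma supPt_le {C : Set (Pt D)} {w : Pt D} (hw : ∀ c ∈ C, le c w) : le (supPt C) w := by
  refine ⟨fun i hi c hc => (hw c hc).1 hi, ?_, ?_⟩
  · rintro t ⟨c, hc, ht⟩
    exact (hw c hc).2.1 ht
  · rintro ⟨c, hc, hs⟩
    exact (hw c hc).2.2 hs

/-- along an increasing chain the sets `A` stabilise on every initial segment of `ℕ` -/
lemma stab {C : Set (Pt D)} (hC : Ch C) {c0 : Pt D} (hc0 : c0 ∈ C) (n : ℕ) :
    ∃ c1 ∈ C, le c0 c1 ∧ ∀ i < n, i ∈ c1.A → i ∈ (supPt C).A := by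
  induction n with
  | zero => exact ⟨c0, hc0, le_refl _, fun i hi => absurd hi (Nat.not_lt_zero _)⟩
  | succ n ih =>
    obtain ⟨c1, hc1, hle, h⟩ := ih
    by_cases hn : n ∈ (supPt C).A
    · refine ⟨c1, hc1, hle, fun i hi hic => ?_⟩
      rcases Nat.lt_succ_iff_lt_or_eq.mp hi with hi | rfl
      · exact h i hi hic
      · exact hn
    · have : ∃ c ∈ C, n ∉ c.A := by
        by_contra hcon
        push Not at hcon
        exact hn hcon
      obtain ⟨c, hc, hnc⟩ := this
      rcases hC c1 hc1 c hc with hcc | hcc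
      · refine ⟨c, hc, le_trans hle hcc, fun i hi hic => ?_⟩
        rcases Nat.lt_succ_iff_lt_or_eq.mp hi with hi | rfl
        · exact h i hi (hcc.1 hic)
        · exact absurd hic hnc
      · refine ⟨c1, hc1, hle, fun i hi hic => ?_⟩
        rcases Nat.lt_succ_iff_lt_or_eq.mp hi with hi | rfl
        · exact h i hi hic
        · exact absurd (hcc.1 hic) hnc

/-- the supremum of a chain avoiding the identity is not the identity -/
lemma supPt_ne_one {C : Set (Pt D)} (hC : Ch C) (h1 : one D ∉ C) :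
    supPt C ≠ one D := by
  intro heq
  have hs : (supPt C).s := by rw [heq]; trivial
  obtain ⟨c0, hc0, hs0⟩ := hs
  obtain ⟨m, hm⟩ := bounded_of_forall (D := D) (A := c0.A) (fun t => c0.fin t (by
    rw [c0.full hs0]; trivial))
  obtain ⟨c1, hc1, hle, h⟩ := stab hC hc0 m
  apply h1
  have : c1 = one D := by
    have hs1 : c1.s := hle.2.2 hs0
    apply Pt.ext
    · apply Set.eq_empty_of_forall_notMem
      intro i hi
      have := h i (hm i (hle.1 hi)) hi
      rw [heq] at this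
      exact this
    · exact c1.full hs1
    · exact propext ⟨fun _ => trivial, fun _ => hs1⟩
  rw [← this]; exact hc1

/-- a maximal chain of `Pt D` without the identity -/
structure MaxCh (M : Set (Pt D)) : Prop where
  ch : Ch M
  ne : one D ∉ M
  max : ∀ z : Pt D, z ≠ one D → (∀ m ∈ M, le m z ∨ le z m) → z ∈ M

lemma infPt_mem {M C : Set (Pt D)} (hM : MaxCh M) (hCM : C ⊆ M) (hne : C.Nonempty) :
    infPt C ∈ M := by
  apply hM.max
  · intro heq
    obtain ⟨c, hc⟩ := hne
    apply hM.ne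
    have h1 : le (infPt C) c := infPt_le hc
    rw [heq] at h1
    have h2 : c = one D := le_antisymm (le_one c) h1
    rw [← h2]; exact hCM hc
  · intro m hm
    by_cases h : ∀ c ∈ C, le m c
    · left; exact le_infPt h
    · push Not at h
      obtain ⟨c, hc, hn⟩ := h
      right
      rcases hM.ch m hm c (hCM hc) with h | h
      · exact absurd h hn
      · exact le_trans (infPt_le hc) h

lemma supPt_mem {M C : Set (Pt D)} (hM : MaxCh M) (hCM : C ⊆ M) : supPt C ∈ M := by
  apply hM.max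
  · exact supPt_ne_one (fun p hp q hq => hM.ch p (hCM hp) q (hCM hq)) (fun h => hM.ne (hCM h))
  · intro m hm
    by_cases h : ∀ c ∈ C, le c m
    · right; exact supPt_le h
    · push Not at h
      obtain ⟨c, hc, hn⟩ := h
      left
      rcases hM.ch c (hCM hc) m hm with h | h
      · exact absurd h hn
      · exact le_trans h (le_supPt hc)

/-- the easy part of the convergence to the supremum: everything except `R` -/
lemma sup_easy {C : Set (Pt D)} (hC : Ch C) {c₀ : Pt D} (hc₀ : c₀ ∈ C) {U : Set (Pt D)}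
    (hU : Sub D U) (hz : supPt C ∈ U) (hR : U = {p | ¬ p.s ∧ Br p.I} →
      ∃ c0 ∈ C, ∀ c ∈ C, le c0 c → c ∈ U) :
    ∃ c0 ∈ C, ∀ c ∈ C, le c0 c → c ∈ U := by
  rcases hU with i | i | ⟨t, m⟩ | ⟨t, m⟩ | _ | _
  · exact ⟨c₀, hc₀, fun c hc _ => hz c hc⟩
  · have : ∃ c ∈ C, i ∉ c.A := by
      by_contra hcon
      push Not at hcon
      exact hz hcon
    obtain ⟨c0, hc0, hi⟩ := this
    exact ⟨c0, hc0, fun c _ hle hic => hi (hle.1 hic)⟩
  · obtain ⟨⟨c0, hc0, ht⟩, hm⟩ := hz
    obtain ⟨m', hm'⟩ := c0.fin t ht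
    obtain ⟨c1, hc1, hle1, h⟩ := stab hC hc0 m'
    refine ⟨c1, hc1, fun c _ hle => ⟨(le_trans hle1 hle).2.1 ht, fun i hi hq => ?_⟩⟩
    exact hm i (h i (hm' i (hle1.1 (hle.1 hi)) hq) (hle.1 hi)) hq
  · refine ⟨c₀, hc₀, fun c hc _ h => hz ⟨⟨c, hc, h.1⟩, fun i hi hq => h.2 i (hi c hc) hq⟩⟩
  · obtain ⟨c0, hc0, hs⟩ := hz
    exact ⟨c0, hc0, fun c _ hle => hle.2.2 hs⟩
  · exact hR rfl

/-- if all levels in the chain are proper and the levels exhaust everything, then the sets
are eventually equal to the limit -/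
lemma exists_A_eq {C : Set (Pt D)} (hC : Ch C) (hne : C.Nonempty) (htop : ∀ t, ∃ c ∈ C, t ∈ c.I) :
    ∃ c1 ∈ C, c1.A = (supPt C).A := by
  -- it suffices to find `c` with bounded `A`
  have key : ∃ c ∈ C, ∃ m, ∀ i ∈ c.A, i < m := by
    by_contra hcon
    push Not at hcon
    obtain ⟨c₀, hc₀⟩ := hne
    obtain ⟨m0, hm0⟩ := bounded_of_forall (D := D) (A := (supPt C).A) (fun t =>
      (supPt C).fin t (htop t))
    choose c hcC hle hst using fun n => stab hC hc₀ n
    have he : ∀ n, ∃ e ∈ (c n).A, n ≤ e ∧ m0 ≤ e := by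
      intro n
      obtain ⟨e, he, hme⟩ := hcon (c n) (hcC n) (max n m0)
      exact ⟨e, he, le_of_max_le_left hme, le_of_max_le_right hme⟩
    choose e heA hne hm0e using he
    -- every member of the chain contains almost all of the range of `e`
    have halm : ∀ d ∈ C, ∃ n0, ∀ n, n0 ≤ n → e n ∈ d.A := by
      intro d hd
      by_contra hcon2
      push Not at hcon2
      obtain ⟨i, hid, hi⟩ := hcon d hd m0
      obtain ⟨n, hn, hen⟩ := hcon2 (i + 1)
      rcases hC d hd (c n) (hcC n) with h | h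
      · exact hen (h.1 (heA n))
      · have := hst n i (by omega) (h.1 hid)
        have := hm0 i this
        omega
    obtain ⟨t, ht⟩ := D.hit (range e) (fun m => ⟨e m, ⟨m, rfl⟩, hne m⟩)
    obtain ⟨d, hd, htd⟩ := htop t
    obtain ⟨m, hm⟩ := d.fin t htd
    obtain ⟨n0, hn0⟩ := halm d hd
    -- bound on the values e n, n < n0
    obtain ⟨B, hB⟩ : ∃ B, ∀ n < n0, e n < B := by
      clear hn0
      induction n0 with
      | zero => exact ⟨0, fun n hn => absurd hn (Nat.not_lt_zero _)⟩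
      | succ k ih =>
        obtain ⟨B, hB⟩ := ih
        refine ⟨max B (e k + 1), fun n hn => ?_⟩
        rcases Nat.lt_succ_iff_lt_or_eq.mp hn with hn | rfl
        · exact lt_of_lt_of_le (hB n hn) (le_max_left _ _)
        · exact lt_of_lt_of_le (Nat.lt_succ_self _) (le_max_right _ _)
    obtain ⟨_, ⟨n, rfl⟩, h1, h2⟩ := ht (max m B)
    have hn : n0 ≤ n := by
      by_contra hlt
      push Not at hlt
      have := hB n hlt
      have := le_of_max_le_right h1
      omega
    have := hm (e n) (hn0 n hn) h2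
    have := le_of_max_le_left h1
    omega
  obtain ⟨c, hc, m, hm⟩ := key
  obtain ⟨c1, hc1, hle, h⟩ := stab hC hc m
  refine ⟨c1, hc1, Set.Subset.antisymm ?_ (fun i hi => hi c1 hc1)⟩
  intro i hi
  exact h i (hm i (hle.1 hi)) hi

/-- the bridging points -/
def brPt (F : Set ℕ) (hF : ∀ t, Bd D F t) (b : D.T) : Pt D where
  A := F
  I := LowerSet.Iic b
  s := False
  fin := fun t _ => hF t
  full := fun h => h.elim

lemma exists_cofinal_gt (t : D.T) : ∃ b ∈ D.B, t < b := D.cof t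

lemma supPt_closure {M C : Set (Pt D)} (hM : MaxCh M) (hCM : C ⊆ M) (hne : C.Nonempty) :
    supPt C ∈ closure {p | p ∈ M ∧ ∃ c ∈ C, le p c} := by
  have hC : Ch C := fun p hp q hq => hM.ch p (hCM hp) q (hCM hq)
  obtain ⟨c₀, hc₀⟩ := hne
  have hsub : C ⊆ {p | p ∈ M ∧ ∃ c ∈ C, le p c} := fun c hc => ⟨hCM hc, c, hc, le_refl c⟩
  by_cases hex : ¬ (supPt C).s ∧ (supPt C).I = ⊤ ∧ ∀ c ∈ C, c.I ≠ ⊤
  · -- the exceptional case
    obtain ⟨hs, htop, hall⟩ := hex
    have htop' : ∀ t, ∃ c ∈ C, t ∈ c.I := by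
      intro t
      have : t ∈ (supPt C).I := by rw [htop]; trivial
      exact this
    obtain ⟨c1, hc1, hA⟩ := exists_A_eq hC ⟨c₀, hc₀⟩ htop'
    have hF : ∀ t, Bd D (supPt C).A t := fun t => (supPt C).fin t (htop' t)
    have hsc : ∀ c ∈ C, ¬ c.s := fun c hc h => hs ⟨c, hc, h⟩
    obtain ⟨t1, ht1⟩ : ∃ t1, t1 ∉ c1.I := by
      by_contra hcon
      push Not at hcon
      exact hall c1 hc1 (by rw [eq_top_iff]; exact fun t _ => hcon t)
    -- for `b` above `t1`
    have hge : ∀ b, t1 ≤ b → le c1 (brPt (supPt C).A hF b) := by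
      intro b hb
      refine ⟨?_, ?_, fun h => (hsc c1 hc1 h).elim⟩
      · rw [hA]; exact Subset.rfl
      · intro t ht
        show t ≤ b
        by_contra hlt
        push Not at hlt
        exact ht1 (c1.I.lower (hb.trans hlt.le) ht)
    have hle : ∀ b, le (brPt (supPt C).A hF b) (supPt C) := by
      intro b
      refine ⟨Subset.rfl, ?_, fun h => h.elim⟩
      rw [htop]; exact le_top
    have hmem : ∀ b, t1 ≤ b → brPt (supPt C).A hF b ∈ M := by
      intro b hb
      apply hM.max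
      · intro heq
        have : (brPt (supPt C).A hF b).s := by rw [heq]; trivial
        exact this
      · intro m hm
        rcases hM.ch m hm c1 (hCM hc1) with h | h
        · left; exact le_trans h (hge b hb)
        · rcases hM.ch m hm _ (supPt_mem hM hCM) with h' | h'
          · have hmA : m.A = (supPt C).A := by
              apply Set.Subset.antisymm
              · rw [← hA]; exact h.1
              · exact h'.1
            have hms : ¬ m.s := fun hh => hs (h'.2.2 hh)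
            rcases le_total m.I (LowerSet.Iic b) with h'' | h''
            · left
              refine ⟨?_, h'', fun hh => (hms hh).elim⟩
              rw [hmA]; exact Subset.rfl
            · right
              refine ⟨?_, h'', fun hh => hh.elim⟩
              rw [hmA]; exact Subset.rfl
          · right; exact le_trans (hle b) h'
    have hdown : ∀ b ∈ D.B, t1 ≤ b → ∃ c ∈ C, le (brPt (supPt C).A hF b) c := by
      intro b hb htb
      obtain ⟨c2, hc2, hn⟩ := htop' (D.nx b)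
      have h12 : le c1 c2 := by
        rcases hC c1 hc1 c2 hc2 with h | h
        · exact h
        · exfalso
          apply ht1
          apply c1.I.lower (htb.trans (D.lt_nx b hb).le)
          exact h.2.1 hn
      refine ⟨c2, hc2, ?_, ?_, fun h => h.elim⟩
      · show c2.A ⊆ (supPt C).A
        rw [← hA]; exact h12.1
      · intro t ht
        have : t ≤ b := ht
        exact c2.I.lower (this.trans (D.lt_nx b hb).le) hn
    -- now use the tail filter of the family of bridging points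
    let W : Set (Pt D) := {p | ∃ b ∈ D.B, t1 ≤ b ∧ p = brPt (supPt C).A hF b}
    have hW : W ⊆ {p | p ∈ M ∧ ∃ c ∈ C, le p c} := by
      rintro p ⟨b, hb, htb, rfl⟩
      exact ⟨hmem b htb, hdown b hb htb⟩
    apply closure_mono hW
    apply mem_closure_of_tail W le le_refl (fun a b c h1 h2 => le_trans h1 h2)
    · rintro p ⟨b, hb, htb, rfl⟩ q ⟨b', hb', htb', rfl⟩
      rcases le_total b b' with h | h
      · left
        exact ⟨Subset.rfl, fun t ht => _root_.le_trans (show t ≤ b from ht) h, id⟩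
      · right
        exact ⟨Subset.rfl, fun t ht => _root_.le_trans (show t ≤ b' from ht) h, id⟩
    · obtain ⟨b, hb, hlt⟩ := D.cof t1
      exact ⟨_, b, hb, hlt.le, rfl⟩
    · intro U hU hz
      obtain ⟨b1, hb1, hlt1⟩ := D.cof t1
      rcases hU with i | i | ⟨t, m⟩ | ⟨t, m⟩ | _ | _
      · refine ⟨_, ⟨b1, hb1, hlt1.le, rfl⟩, ?_⟩
        rintro c ⟨b, hb, htb, rfl⟩ _
        exact hz
      · refine ⟨_, ⟨b1, hb1, hlt1.le, rfl⟩, ?_⟩
        rintro c ⟨b, hb, htb, rfl⟩ _
        exact hz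
      · obtain ⟨b2, hb2, hlt2⟩ := D.cof (max t t1)
        refine ⟨_, ⟨b2, hb2, ((le_max_right _ _).trans_lt hlt2).le, rfl⟩, ?_⟩
        rintro c ⟨b, hb, htb, rfl⟩ hlec
        refine ⟨?_, hz.2⟩
        apply hlec.2.1
        exact ((le_max_left _ _).trans_lt hlt2).le
      · refine ⟨_, ⟨b1, hb1, hlt1.le, rfl⟩, ?_⟩
        rintro c ⟨b, hb, htb, rfl⟩ _ h
        exact hz ⟨htop' t, h.2⟩
      · exact absurd hz hs
      · refine ⟨_, ⟨b1, hb1, hlt1.le, rfl⟩, ?_⟩
        rintro c ⟨b, hb, htb, rfl⟩ _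
        refine ⟨fun h => h, Or.inr ⟨b, hb, ?_, ?_⟩⟩
        · exact _root_.le_refl b
        · intro h
          exact absurd (show D.nx b ≤ b from h) (not_le.mpr (D.lt_nx b hb))
  · -- the regular case
    apply closure_mono hsub
    apply mem_closure_of_tail C le le_refl (fun a b c h1 h2 => le_trans h1 h2) hC ⟨c₀, hc₀⟩
    intro U hU hz
    apply sup_easy hC hc₀ hU hz
    rintro rfl
    obtain ⟨hs, hbr⟩ := hz
    have hsc : ∀ c ∈ C, ¬ c.s := fun c hc h => hs ⟨c, hc, h⟩
    rcases hbr with htop | ⟨b, hb, h1, h2⟩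
    · have : ∃ c ∈ C, c.I = ⊤ := by
        by_contra hcon
        push Not at hcon
        exact hex ⟨hs, htop, hcon⟩
      obtain ⟨c0, hc0, h0⟩ := this
      refine ⟨c0, hc0, fun c hc hle => ⟨hsc c hc, Or.inl ?_⟩⟩
      rw [eq_top_iff, ← h0]
      exact hle.2.1
    · obtain ⟨c0, hc0, h0⟩ := h1
      refine ⟨c0, hc0, fun c hc hle => ⟨hsc c hc, Or.inr ⟨b, hb, hle.2.1 h0, ?_⟩⟩⟩
      intro h
      exact h2 ⟨c, hc, h⟩

/-- the identity is in the closure of its complement -/
lemma one_mem_closure : one D ∈ closure {p : Pt D | p ≠ one D} := by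
  let x : ℕ → Pt D := fun i =>
    { A := {i}
      I := ⊤
      s := True
      fin := fun t _ => ⟨i + 1, by
        intro j hj _
        have : j = i := hj
        omega⟩
      full := fun _ => rfl }
  have hx : ∀ i, x i ∈ {p : Pt D | p ≠ one D} := by
    intro i heq
    have : i ∈ (x i).A := rfl
    rw [heq] at this
    exact this
  -- the filter
  let 𝓕 : Filter ℕ :=
    { sets := {U | ∃ t m, ∀ i, m ≤ i → i ∉ D.Q t → i ∈ U}
      univ_sets := by
        obtain ⟨t⟩ := D.ne
        exact ⟨t, 0, fun _ _ _ => mem_univ _⟩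
      sets_of_superset := by
        rintro U V ⟨t, m, h⟩ hUV
        exact ⟨t, m, fun i h1 h2 => hUV (h i h1 h2)⟩
      inter_sets := by
        rintro U V ⟨t, m, h⟩ ⟨t', m', h'⟩
        rcases le_total t t' with htt | htt
        · obtain ⟨k, hk⟩ := D.mono _ _ htt
          refine ⟨t', max k (max m m'), fun i h1 h2 => ⟨h i ?_ ?_, h' i ?_ h2⟩⟩
          · omega
          · intro hq
            exact h2 (hk i hq (by omega))
          · omega
        · obtain ⟨k, hk⟩ := D.mono _ _ htt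
          refine ⟨t, max k (max m m'), fun i h1 h2 => ⟨h i ?_ h2, h' i ?_ ?_⟩⟩
          · omega
          · omega
          · intro hq
            exact h2 (hk i hq (by omega)) }
  have hneb : NeBot 𝓕 := by
    constructor
    intro hbot
    have : (∅ : Set ℕ) ∈ 𝓕 := by rw [hbot]; exact mem_bot
    obtain ⟨t, m, h⟩ := this
    obtain ⟨i, h1, h2⟩ := D.coinf t m
    exact h i h1 h2
  have ht : Tendsto x 𝓕 (𝓝 (one D)) := by
    rw [tendsto_iff]
    intro U hU hz
    obtain ⟨t0⟩ := D.ne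
    rcases hU with i | i | ⟨t, m⟩ | ⟨t, m⟩ | _ | _
    · exact hz.elim
    · refine ⟨t0, i + 1, fun j hj _ => ?_⟩
      intro h
      have : i = j := h
      omega
    · refine ⟨t, 0, fun j _ hj => ⟨trivial, fun k hk hq => ?_⟩⟩
      have : k = j := hk
      rw [this] at hq
      exact absurd hq hj
    · exact absurd ⟨trivial, fun k hk _ => hk.elim⟩ hz
    · exact ⟨t0, 0, fun _ _ _ => trivial⟩
    · exact absurd trivial hz.1
  exact mem_closure_of_tendsto ht (Filter.Eventually.of_forall hx)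

end Pt

end Pool.Agent.H32.Semilat
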