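import Mathlib

/-!
Combinatorial data for the counterexample to MP_97d10c_gt, built from a maximal
chain (modulo finite sets) of co-infinite subsets of `ℕ`.
-/

namespace Pool.Agent.H32.Semilat

open Set

/-- The combinatorial data: a linearly ordered family of subsets of `ℕ`, increasing modulo
finite sets, each with infinite complement, such that every infinite set meets one of them
in an infinite set, together with a cofinal set `B` of indices having an immediate successor
with the same set. -/
structure Data where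
  T : Type
  [lo : LinearOrder T]
  Q : T → Set ℕ
  B : Set T
  nx : T → T
  lt_nx : ∀ b ∈ B, b < nx b
  nx_le : ∀ b ∈ B, ∀ t, b < t → nx b ≤ t
  Q_nx : ∀ b ∈ B, Q (nx b) = Q b
  cof : ∀ t, ∃ b ∈ B, t < b
  ne : Nonempty T
  coinf : ∀ t m, ∃ i, m ≤ i ∧ i ∉ Q t
  mono : ∀ t t', t ≤ t' → ∃ m, ∀ i ∈ Q t, m ≤ i → i ∈ Q t'
  hit : ∀ E : Set ℕ, (∀ m, ∃ i ∈ E, m ≤ i) → ∃ t, ∀ m, ∃ i ∈ E, m ≤ i ∧ i ∈ Q t

attribute [instance] Data.lo

/-- co-infinite sets -/
abbrev CoInf := {Q : Set ℕ // Qᶜ.Infinite}

/-- strict almost inclusion -/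
def rel (P Q : CoInf) : Prop := (P.1 \ Q.1).Finite ∧ (Q.1 \ P.1).Infinite

lemma rel_irrefl (P : CoInf) : ¬ rel P P := by
  intro h
  have := h.2
  simp at this

lemma rel_trans {P Q S : CoInf} (h1 : rel P Q) (h2 : rel Q S) : rel P S := by
  constructor
  · apply (h1.1.union h2.1).subset
    intro i hi
    by_cases hq : i ∈ Q.1
    · right; exact ⟨hq, hi.2⟩
    · left; exact ⟨hi.1, hq⟩
  · intro hfin
    apply h1.2
    apply (h2.1.union hfin).subset
    intro i hi
    by_cases hs : i ∈ S.1
    · right; exact ⟨hs, hi.2⟩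
    · left; exact ⟨hi.1, hs⟩

/-- a maximal chain of co-infinite sets modulo finite sets -/
def QQ : Set CoInf := maxChain rel

lemma QQ_spec : IsMaxChain rel QQ := maxChain_spec

lemma QQ_hit (E : Set ℕ) (hE : E.Infinite) : ∃ P ∈ QQ, (E ∩ P.1).Infinite := by
  by_contra hcon
  push Not at hcon
  have hcon' : ∀ P ∈ QQ, (E ∩ P.1).Finite := fun P hP => hcon P hP
  -- split E
  obtain ⟨f, hf⟩ : ∃ f : ℕ ↪ ℕ, range f ⊆ E := by
    refine ⟨(Set.Infinite.natEmbedding E hE).trans (Function.Embedding.subtype _), ?_⟩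
    rintro _ ⟨n, rfl⟩
    exact (Set.Infinite.natEmbedding E hE n).2
  let E1 : Set ℕ := range (fun n => f (2 * n))
  let E2 : Set ℕ := range (fun n => f (2 * n + 1))
  have hE1 : E1.Infinite := by
    apply Set.infinite_range_of_injective
    intro a b hab
    have := f.injective hab
    omega
  have hE2 : E2.Infinite := by
    apply Set.infinite_range_of_injective
    intro a b hab
    have := f.injective hab
    omega
  have hdisj : ∀ i, i ∈ E1 → i ∉ E2 := by
    rintro i ⟨n, rfl⟩ ⟨m, hm⟩
    have := f.injective hm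
    omega
  have hE1E : E1 ⊆ E := by
    rintro _ ⟨n, rfl⟩; exact hf ⟨_, rfl⟩
  have hE2E : E2 ⊆ E := by
    rintro _ ⟨n, rfl⟩; exact hf ⟨_, rfl⟩
  let N : CoInf := ⟨E1ᶜ, by rw [compl_compl]; exact hE1⟩
  have hrel : ∀ P ∈ QQ, rel P N := by
    intro P hP
    constructor
    · apply (hcon' P hP).subset
      rintro i ⟨hi, hi'⟩
      have : i ∈ E1 := by
        by_contra h
        exact hi' h
      exact ⟨hE1E this, hi⟩
    · intro hfin
      apply hE2
      apply ((hcon' P hP).union hfin).subset
      intro i hi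
      by_cases hp : i ∈ P.1
      · left; exact ⟨hE2E hi, hp⟩
      · right
        exact ⟨fun h => hdisj i h hi, hp⟩
  have hchain : IsChain rel (insert N QQ) := by
    apply QQ_spec.1.insert
    intro P hP _
    right
    exact hrel P hP
  have heq := QQ_spec.2 hchain (subset_insert _ _)
  have hN : N ∈ QQ := by
    rw [heq]; exact mem_insert _ _
  apply hE2
  apply (hcon' N hN).subset
  intro i hi
  exact ⟨hE2E hi, fun h => hdisj i h hi⟩

lemma QQ_tri (P Q : QQ) : rel P.1 Q.1 ∨ P = Q ∨ rel Q.1 P.1 := by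
  by_cases h : P = Q
  · right; left; exact h
  · have := QQ_spec.1 P.2 Q.2 (fun h' => h (Subtype.ext h'))
    rcases this with h | h
    · left; exact h
    · right; right; exact h

lemma QQ_nomax (P : QQ) : ∃ P' : QQ, rel P.1 P'.1 := by
  obtain ⟨R, hR, hinf⟩ := QQ_hit (P.1.1ᶜ) P.1.2
  refine ⟨⟨R, hR⟩, ?_⟩
  have hinf' : (R.1 \ P.1.1).Infinite := by
    apply hinf.mono
    rintro i ⟨h1, h2⟩
    exact ⟨h2, h1⟩
  rcases QQ_tri P ⟨R, hR⟩ with h | h | h
  · exact h
  · exfalso
    have : P.1 = R := by rw [h]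
    rw [this] at hinf'
    simp at hinf'
  · exact absurd h.1 hinf'

/-- the maximal chain as a type of its own -/
def LL : Type := QQ

/-- the strict order on the chain -/
def lrel (P Q : LL) : Prop := rel P.1 Q.1

instance : IsStrictTotalOrder LL lrel where
  trichotomous a b h1 h2 := by
    rcases QQ_tri a b with h | h | h
    · exact absurd h h1
    · exact h
    · exact absurd h h2
  irrefl a := rel_irrefl a.1
  trans _ _ _ h1 h2 := rel_trans h1 h2

open Classical in
noncomputable instance : LinearOrder LL := linearOrderOfSTO lrel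

lemma LL_lt (P Q : LL) : P < Q ↔ rel P.1 Q.1 := Iff.rfl

theorem exists_data : Nonempty Data := by
  refine ⟨{ T := LL ×ₗ Bool
            Q := fun t => (ofLex t).1.1.1
            B := {t | (ofLex t).2 = false}
            nx := fun t => toLex ((ofLex t).1, true)
            lt_nx := ?_
            nx_le := ?_
            Q_nx := ?_
            cof := ?_
            ne := ?_
            coinf := ?_
            mono := ?_
            hit := ?_ }⟩
  · intro b hb
    rw [Prod.Lex.lt_iff]
    right
    refine ⟨rfl, ?_⟩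
    have : (ofLex b).2 = false := hb
    rw [this]
    exact Bool.false_lt_true
  · intro b hb t hbt
    rw [Prod.Lex.lt_iff] at hbt
    rw [Prod.Lex.le_iff]
    rcases hbt with h | ⟨h, h'⟩
    · left; exact h
    · right
      refine ⟨h, ?_⟩
      have hb' : (ofLex b).2 = false := hb
      rw [hb'] at h'
      have : (ofLex t).2 = true := by
        rcases hh : (ofLex t).2 with _ | _
        · rw [hh] at h'; exact absurd h' (lt_irrefl _)
        · rfl
      rw [this]
      exact le_refl _
  · intro b hb; rfl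
  · intro t
    obtain ⟨P', hP'⟩ := QQ_nomax (ofLex t).1
    refine ⟨toLex (P', false), rfl, ?_⟩
    rw [Prod.Lex.lt_iff]
    left
    exact hP'
  · obtain ⟨P, hP, _⟩ := QQ_hit univ Set.infinite_univ
    exact ⟨toLex (⟨P, hP⟩, false)⟩
  · intro t m
    have h : (((ofLex t).1.1.1)ᶜ).Infinite := (ofLex t).1.1.2
    obtain ⟨i, hi, hmi⟩ := Set.Infinite.exists_gt h m
    exact ⟨i, hmi.le, hi⟩
  · intro t t' htt
    have hfin : ((ofLex t).1.1.1 \ (ofLex t').1.1.1).Finite := by
      rw [Prod.Lex.le_iff] at htt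
      rcases htt with h | ⟨h, _⟩
      · exact h.1
      · rw [h]; simp
    obtain ⟨m, hm⟩ := hfin.bddAbove
    refine ⟨m + 1, ?_⟩
    intro i hi hmi
    by_contra hni
    have := hm ⟨hi, hni⟩
    omega
  · intro E hE
    have hEinf : E.Infinite := by
      intro hfin
      obtain ⟨m, hm⟩ := hfin.bddAbove
      obtain ⟨i, hi, hmi⟩ := hE (m + 1)
      have := hm hi
      omega
    obtain ⟨P, hP, hinf⟩ := QQ_hit E hEinf
    refine ⟨toLex (⟨P, hP⟩, false), ?_⟩
    intro m
    obtain ⟨i, hi, hmi⟩ := Set.Infinite.exists_gt hinf m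
    exact ⟨i, hi.1, hmi.le, hi.2⟩

end Pool.Agent.H32.Semilat
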