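import Pool.Agent.H32.Semilat.Data

/-!
The Hausdorff topological semilattice `Pt D`.
-/

namespace Pool.Agent.H32.Semilat

open Set Topology Filter

/-- `A ∩ Q t` is bounded. -/
def Bd (D : Data) (A : Set ℕ) (t : D.T) : Prop := ∃ m, ∀ i ∈ A, i ∈ D.Q t → i < m

lemma Bd.mono_left {D : Data} {A A' : Set ℕ} {t : D.T} (h : Bd D A t) (hA : A' ⊆ A) :
    Bd D A' t := by
  obtain ⟨m, hm⟩ := h
  exact ⟨m, fun i hi => hm i (hA hi)⟩

lemma Bd.union {D : Data} {A A' : Set ℕ} {t : D.T} (h : Bd D A t) (h' : Bd D A' t) :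
    Bd D (A ∪ A') t := by
  obtain ⟨m, hm⟩ := h
  obtain ⟨m', hm'⟩ := h'
  refine ⟨max m m', fun i hi hq => ?_⟩
  rcases hi with hi | hi
  · exact lt_of_lt_of_le (hm i hi hq) (le_max_left _ _)
  · exact lt_of_lt_of_le (hm' i hi hq) (le_max_right _ _)

lemma Bd.down {D : Data} {A : Set ℕ} {t t' : D.T} (h : Bd D A t) (ht : t' ≤ t) :
    Bd D A t' := by
  obtain ⟨m, hm⟩ := h
  obtain ⟨m', hm'⟩ := D.mono t' t ht
  refine ⟨max m m', fun i hi hq => ?_⟩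
  by_contra hcon
  have h1 : m ≤ i := by omega
  have h2 : m' ≤ i := by omega
  have := hm i hi (hm' i hq h2)
  omega

/-- if `A` meets every `Q t` in a bounded set then `A` is bounded -/
lemma bounded_of_forall {D : Data} {A : Set ℕ} (h : ∀ t, Bd D A t) : ∃ m, ∀ i ∈ A, i < m := by
  by_contra hcon
  push Not at hcon
  obtain ⟨t, ht⟩ := D.hit A (fun m => by
    obtain ⟨i, hi, hmi⟩ := hcon m
    exact ⟨i, hi, hmi⟩)
  obtain ⟨m, hm⟩ := h t
  obtain ⟨i, hi, hmi, hq⟩ := ht m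
  have := hm i hi hq
  omega

/-- points of the big semilattice -/
@[ext] structure Pt (D : Data) where
  A : Set ℕ
  I : LowerSet D.T
  s : Prop
  fin : ∀ t ∈ I, Bd D A t
  full : s → I = ⊤

variable {D : Data}

namespace Pt

instance : Mul (Pt D) where
  mul p q :=
    { A := p.A ∪ q.A
      I := p.I ⊓ q.I
      s := p.s ∧ q.s
      fin := fun t ht => (p.fin t ht.1).union (q.fin t ht.2)
      full := fun h => by rw [p.full h.1, q.full h.2]; simp }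

@[simp] lemma mul_A (p q : Pt D) : (p * q).A = p.A ∪ q.A := rfl
@[simp] lemma mul_I (p q : Pt D) : (p * q).I = p.I ⊓ q.I := rfl
@[simp] lemma mul_s (p q : Pt D) : (p * q).s = (p.s ∧ q.s) := rfl

instance : CommSemigroup (Pt D) where
  mul_assoc p q r := by
    apply Pt.ext
    · simp [Set.union_assoc]
    · simp [inf_assoc]
    · simp [and_assoc]
  mul_comm p q := by
    apply Pt.ext
    · simp [Set.union_comm]
    · simp [inf_comm]
    · simp [and_comm]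

lemma mul_self (p : Pt D) : p * p = p := by
  apply Pt.ext <;> simp

/-- the order -/
def le (p q : Pt D) : Prop := q.A ⊆ p.A ∧ p.I ≤ q.I ∧ (p.s → q.s)

lemma mul_eq_iff (p q : Pt D) : p * q = p ↔ le p q := by
  rw [Pt.ext_iff]
  simp only [mul_A, mul_I, mul_s, Set.union_eq_left, inf_eq_left, eq_iff_iff, and_iff_left_iff_imp]
  rfl

lemma le_refl (p : Pt D) : le p p := ⟨Subset.rfl, _root_.le_refl _, id⟩

lemma le_trans {p q r : Pt D} (h1 : le p q) (h2 : le q r) : le p r :=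
  ⟨h2.1.trans h1.1, _root_.le_trans h1.2.1 h2.2.1, h2.2.2 ∘ h1.2.2⟩

lemma le_antisymm {p q : Pt D} (h1 : le p q) (h2 : le q p) : p = q := by
  apply Pt.ext
  · exact Set.Subset.antisymm h2.1 h1.1
  · exact _root_.le_antisymm h1.2.1 h2.2.1
  · exact propext ⟨h1.2.2, h2.2.2⟩

/-- the identity element -/
def one (D : Data) : Pt D where
  A := ∅
  I := ⊤
  s := True
  fin := fun t _ => ⟨0, fun i hi => hi.elim⟩
  full := fun _ => rfl

lemma le_one (p : Pt D) : le p (one D) := ⟨empty_subset _, le_top, fun _ => trivial⟩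

/-- the bridging levels -/
def Br (I : LowerSet D.T) : Prop := I = ⊤ ∨ ∃ b ∈ D.B, b ∈ I ∧ D.nx b ∉ I

/-- the subbase -/
inductive Sub (D : Data) : Set (Pt D) → Prop
  | E (i : ℕ) : Sub D {p | i ∈ p.A}
  | Ec (i : ℕ) : Sub D {p | i ∉ p.A}
  | O (t : D.T) (m : ℕ) : Sub D {p | t ∈ p.I ∧ ∀ i ∈ p.A, i ∈ D.Q t → i < m}
  | Oc (t : D.T) (m : ℕ) : Sub D {p | ¬ (t ∈ p.I ∧ ∀ i ∈ p.A, i ∈ D.Q t → i < m)}
  | S : Sub D {p | p.s}
  | R : Sub D {p | ¬ p.s ∧ Br p.I}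

instance : TopologicalSpace (Pt D) := TopologicalSpace.generateFrom {U | Sub D U}

lemma isOpen_of_sub {U : Set (Pt D)} (h : Sub D U) : IsOpen U :=
  TopologicalSpace.isOpen_generateFrom_of_mem h

lemma tendsto_iff {β : Type*} {m : β → Pt D} {f : Filter β} {z : Pt D} :
    Tendsto m f (𝓝 z) ↔ ∀ U, Sub D U → z ∈ U → m ⁻¹' U ∈ f :=
  TopologicalSpace.tendsto_nhds_generateFrom_iff

/-- the filter of tails -/
def tailFilter (C : Set (Pt D)) (r : Pt D → Pt D → Prop) (hrefl : ∀ a, r a a)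
    (htrans : ∀ a b c, r a b → r b c → r a c)
    (htot : ∀ a ∈ C, ∀ b ∈ C, r a b ∨ r b a) (hne : C.Nonempty) : Filter (Pt D) where
  sets := {U | ∃ c0 ∈ C, ∀ c ∈ C, r c0 c → c ∈ U}
  univ_sets := by
    obtain ⟨c, hc⟩ := hne
    exact ⟨c, hc, fun _ _ _ => mem_univ _⟩
  sets_of_superset := by
    rintro U V ⟨c0, hc0, h⟩ hUV
    exact ⟨c0, hc0, fun c hc hr => hUV (h c hc hr)⟩
  inter_sets := by
    rintro U V ⟨c0, hc0, h0⟩ ⟨c1, hc1, h1⟩
    rcases htot c0 hc0 c1 hc1 with h | h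
    · exact ⟨c1, hc1, fun c hc hr => ⟨h0 c hc (htrans _ _ _ h hr), h1 c hc hr⟩⟩
    · exact ⟨c0, hc0, fun c hc hr => ⟨h0 c hc hr, h1 c hc (htrans _ _ _ h hr)⟩⟩

lemma mem_closure_of_tail (C : Set (Pt D)) (r : Pt D → Pt D → Prop) (hrefl : ∀ a, r a a)
    (htrans : ∀ a b c, r a b → r b c → r a c)
    (htot : ∀ a ∈ C, ∀ b ∈ C, r a b ∨ r b a) (hne : C.Nonempty) (z : Pt D)
    (h : ∀ U, Sub D U → z ∈ U → ∃ c0 ∈ C, ∀ c ∈ C, r c0 c → c ∈ U) : z ∈ closure C := by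
  have ht : Tendsto id (tailFilter C r hrefl htrans htot hne) (𝓝 z) := by
    rw [tendsto_iff]
    intro U hU hz
    exact h U hU hz
  haveI : NeBot (tailFilter C r hrefl htrans htot hne) := by
    constructor
    intro hbot
    have : (∅ : Set (Pt D)) ∈ tailFilter C r hrefl htrans htot hne := by
      rw [hbot]; exact mem_bot
    obtain ⟨c0, hc0, h0⟩ := this
    exact h0 c0 hc0 (hrefl c0)
  apply mem_closure_of_tendsto ht
  obtain ⟨c0, hc0⟩ := hne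
  exact ⟨c0, hc0, fun c hc _ => hc⟩

/-- preimages of subbasic sets under multiplication -/
lemma isOpen_E (i : ℕ) : IsOpen {p : Pt D | i ∈ p.A} := isOpen_of_sub (Sub.E i)
lemma isOpen_Ec (i : ℕ) : IsOpen {p : Pt D | i ∉ p.A} := isOpen_of_sub (Sub.Ec i)
lemma isOpen_O (t : D.T) (m : ℕ) :
    IsOpen {p : Pt D | t ∈ p.I ∧ ∀ i ∈ p.A, i ∈ D.Q t → i < m} := isOpen_of_sub (Sub.O t m)
lemma isOpen_Oc (t : D.T) (m : ℕ) :
    IsOpen {p : Pt D | ¬ (t ∈ p.I ∧ ∀ i ∈ p.A, i ∈ D.Q t → i < m)} := isOpen_of_sub (Sub.Oc t m)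
lemma isOpen_S : IsOpen {p : Pt D | p.s} := isOpen_of_sub Sub.S
lemma isOpen_R : IsOpen {p : Pt D | ¬ p.s ∧ Br p.I} := isOpen_of_sub Sub.R

instance : T2Space (Pt D) := by
  refine ⟨fun p q hpq => ?_⟩
  show ∃ u v : Set (Pt D), IsOpen u ∧ IsOpen v ∧ p ∈ u ∧ q ∈ v ∧ Disjoint u v
  -- a symmetric reduction
  have key : ∀ p q : Pt D, (∃ i, i ∈ p.A ∧ i ∉ q.A) ∨ (p.A = q.A ∧ ∃ t, t ∈ p.I ∧ t ∉ q.I) ∨
      (p.I = q.I ∧ p.s ∧ ¬ q.s) → ∃ u v : Set (Pt D), IsOpen u ∧ IsOpen v ∧ p ∈ u ∧ q ∈ v ∧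
        Disjoint u v := by
    rintro p q (⟨i, hi, hi'⟩ | ⟨hA, t, ht, ht'⟩ | ⟨hI, hs, hs'⟩)
    · refine ⟨_, _, isOpen_E i, isOpen_Ec i, hi, hi', ?_⟩
      rw [Set.disjoint_left]
      intro x hx hx'
      exact hx' hx
    · obtain ⟨m, hm⟩ := p.fin t ht
      refine ⟨_, _, isOpen_O t m, isOpen_Oc t m, ⟨ht, hm⟩, fun h => ht' h.1, ?_⟩
      rw [Set.disjoint_left]
      intro x hx hx'
      exact hx' hx
    · refine ⟨_, _, isOpen_S, isOpen_R, hs, ⟨hs', Or.inl ?_⟩, ?_⟩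
      · rw [← hI]; exact p.full hs
      · rw [Set.disjoint_left]
        intro x hx hx'
        exact hx'.1 hx
  have symm : (∃ u v : Set (Pt D), IsOpen u ∧ IsOpen v ∧ q ∈ u ∧ p ∈ v ∧ Disjoint u v) →
      ∃ u v : Set (Pt D), IsOpen u ∧ IsOpen v ∧ p ∈ u ∧ q ∈ v ∧ Disjoint u v := by
    rintro ⟨u, v, hu, hv, hq, hp, hd⟩
    exact ⟨v, u, hv, hu, hp, hq, hd.symm⟩
  by_cases hA : p.A = q.A
  · by_cases hI : p.I = q.I
    · have hs : ¬ (p.s ↔ q.s) := fun h => hpq (Pt.ext hA hI (propext h))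
      by_cases hps : p.s
      · apply key p q
        right; right
        exact ⟨hI, hps, fun h => hs ⟨fun _ => h, fun _ => hps⟩⟩
      · apply symm
        apply key q p
        right; right
        refine ⟨hI.symm, ?_, hps⟩
        by_contra hqs
        exact hs ⟨fun h => absurd h hps, fun h => absurd h hqs⟩
    · have : ∃ t, ¬ (t ∈ p.I ↔ t ∈ q.I) := by
        by_contra hcon
        push Not at hcon
        exact hI (SetLike.ext hcon)
      obtain ⟨t, ht⟩ := this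
      by_cases hp : t ∈ p.I
      · apply key p q
        right; left
        exact ⟨hA, t, hp, fun h => ht ⟨fun _ => h, fun _ => hp⟩⟩
      · apply symm
        apply key q p
        right; left
        refine ⟨hA.symm, t, ?_, hp⟩
        by_contra hq
        exact ht ⟨fun h => absurd h hp, fun h => absurd h hq⟩
  · have : ∃ i, ¬ (i ∈ p.A ↔ i ∈ q.A) := by
      by_contra hcon
      push Not at hcon
      exact hA (Set.ext hcon)
    obtain ⟨i, hi⟩ := this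
    by_cases hp : i ∈ p.A
    · apply key p q
      left
      exact ⟨i, hp, fun h => hi ⟨fun _ => h, fun _ => hp⟩⟩
    · apply symm
      apply key q p
      left
      refine ⟨i, ?_, hp⟩
      by_contra hq
      exact hi ⟨fun h => absurd h hp, fun h => absurd h hq⟩

/-- a lower set containing `b` but not its successor -/
lemma br_le {I : LowerSet D.T} {b : D.T} (hb : b ∈ D.B) (h1 : b ∈ I) (h2 : D.nx b ∉ I)
    {t : D.T} : t ∈ I ↔ t ≤ b := by
  constructor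
  · intro ht
    by_contra hcon
    push Not at hcon
    exact h2 (I.lower (D.nx_le b hb t hcon) ht)
  · intro ht
    exact I.lower ht h1

lemma br_inf {I J : LowerSet D.T} (hI : Br I) (hJ : Br J) : Br (I ⊓ J) := by
  rcases le_total I J with h | h
  · rw [inf_eq_left.mpr h]; exact hI
  · rw [inf_eq_right.mpr h]; exact hJ

lemma mul_mem_R_aux {p q : Pt D} {b : D.T} (hb : b ∈ D.B) (h1 : b ∈ (p * q).I)
    (h2 : D.nx b ∉ (p * q).I) (h3 : D.nx b ∉ p.I) :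
    ∃ u v : Set (Pt D), IsOpen u ∧ IsOpen v ∧ p ∈ u ∧ q ∈ v ∧
      ∀ p' ∈ u, ∀ q' ∈ v, (p' * q') ∈ {p : Pt D | ¬ p.s ∧ Br p.I} := by
  obtain ⟨m, hm⟩ := p.fin b h1.1
  obtain ⟨m', hm'⟩ := q.fin b h1.2
  refine ⟨{p : Pt D | b ∈ p.I ∧ ∀ i ∈ p.A, i ∈ D.Q b → i < m} ∩
    {p : Pt D | ¬ (D.nx b ∈ p.I ∧ ∀ i ∈ p.A, i ∈ D.Q (D.nx b) → i < m)},
    {p : Pt D | b ∈ p.I ∧ ∀ i ∈ p.A, i ∈ D.Q b → i < m'}, (isOpen_O b m).inter (isOpen_Oc _ m),
    isOpen_O b m', ⟨⟨h1.1, hm⟩, fun h => h3 h.1⟩, ⟨h1.2, hm'⟩, ?_⟩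
  rintro p' ⟨⟨hp1, hp2⟩, hp3⟩ q' ⟨hq1, hq2⟩
  have hnx : D.nx b ∉ p'.I := by
    intro h
    apply hp3
    refine ⟨h, ?_⟩
    rw [D.Q_nx b hb]
    exact hp2
  constructor
  · intro hs
    apply hnx
    rw [p'.full hs.1]
    trivial
  · right
    exact ⟨b, hb, ⟨hp1, hq1⟩, fun h => hnx h.1⟩

instance : ContinuousMul (Pt D) := by
  refine ⟨?_⟩
  rw [continuous_generateFrom_iff]
  intro U hU
  rcases hU with i | i | ⟨t, m⟩ | ⟨t, m⟩ | _ | _
  · have : (fun p : Pt D × Pt D => p.1 * p.2) ⁻¹' {p | i ∈ p.A} =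
        (Prod.fst ⁻¹' {p | i ∈ p.A}) ∪ (Prod.snd ⁻¹' {p | i ∈ p.A}) := by
      ext p; simp
    rw [this]
    exact ((isOpen_E i).preimage continuous_fst).union ((isOpen_E i).preimage continuous_snd)
  · have : (fun p : Pt D × Pt D => p.1 * p.2) ⁻¹' {p | i ∉ p.A} =
        (Prod.fst ⁻¹' {p | i ∉ p.A}) ∩ (Prod.snd ⁻¹' {p | i ∉ p.A}) := by
      ext p; simp
    rw [this]
    exact ((isOpen_Ec i).preimage continuous_fst).inter ((isOpen_Ec i).preimage continuous_snd)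
  · have : (fun p : Pt D × Pt D => p.1 * p.2) ⁻¹'
        {p | t ∈ p.I ∧ ∀ i ∈ p.A, i ∈ D.Q t → i < m} =
        (Prod.fst ⁻¹' {p | t ∈ p.I ∧ ∀ i ∈ p.A, i ∈ D.Q t → i < m}) ∩
        (Prod.snd ⁻¹' {p | t ∈ p.I ∧ ∀ i ∈ p.A, i ∈ D.Q t → i < m}) := by
      ext p
      simp only [mem_preimage, mem_setOf_eq, mul_I, mul_A, mem_inter_iff, LowerSet.mem_inf_iff,
        mem_union]
      constructor
      · rintro ⟨⟨h1, h2⟩, h3⟩
        exact ⟨⟨h1, fun i hi => h3 i (Or.inl hi)⟩, ⟨h2, fun i hi => h3 i (Or.inr hi)⟩⟩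
      · rintro ⟨⟨h1, h2⟩, ⟨h3, h4⟩⟩
        refine ⟨⟨h1, h3⟩, fun i hi => ?_⟩
        rcases hi with hi | hi
        · exact h2 i hi
        · exact h4 i hi
    rw [this]
    exact ((isOpen_O t m).preimage continuous_fst).inter ((isOpen_O t m).preimage continuous_snd)
  · have : (fun p : Pt D × Pt D => p.1 * p.2) ⁻¹'
        {p | ¬ (t ∈ p.I ∧ ∀ i ∈ p.A, i ∈ D.Q t → i < m)} =
        (Prod.fst ⁻¹' {p | ¬ (t ∈ p.I ∧ ∀ i ∈ p.A, i ∈ D.Q t → i < m)}) ∪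
        (Prod.snd ⁻¹' {p | ¬ (t ∈ p.I ∧ ∀ i ∈ p.A, i ∈ D.Q t → i < m)}) := by
      ext p
      simp only [mem_preimage, mem_setOf_eq, mul_I, mul_A, mem_union, LowerSet.mem_inf_iff]
      rw [← not_and_or, not_iff_not]
      constructor
      · rintro ⟨⟨h1, h2⟩, h3⟩
        exact ⟨⟨h1, fun i hi => h3 i (Or.inl hi)⟩, ⟨h2, fun i hi => h3 i (Or.inr hi)⟩⟩
      · rintro ⟨⟨h1, h2⟩, ⟨h3, h4⟩⟩
        refine ⟨⟨h1, h3⟩, fun i hi => ?_⟩
        rcases hi with hi | hi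
        · exact h2 i hi
        · exact h4 i hi
    rw [this]
    exact ((isOpen_Oc t m).preimage continuous_fst).union
      ((isOpen_Oc t m).preimage continuous_snd)
  · have : (fun p : Pt D × Pt D => p.1 * p.2) ⁻¹' {p | p.s} =
        (Prod.fst ⁻¹' {p | p.s}) ∩ (Prod.snd ⁻¹' {p | p.s}) := by
      ext p; simp
    rw [this]
    exact (isOpen_S.preimage continuous_fst).inter (isOpen_S.preimage continuous_snd)
  · rw [isOpen_iff_mem_nhds]
    rintro ⟨p, q⟩ hpq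
    have fin : (∃ u v : Set (Pt D), IsOpen u ∧ IsOpen v ∧ p ∈ u ∧ q ∈ v ∧
      ∀ p' ∈ u, ∀ q' ∈ v, (p' * q') ∈ {p : Pt D | ¬ p.s ∧ Br p.I}) →
      (fun p : Pt D × Pt D => p.1 * p.2) ⁻¹' {p : Pt D | ¬ p.s ∧ Br p.I} ∈ 𝓝 (p, q) := by
      rintro ⟨u, v, hu, hv, hp, hq, h⟩
      filter_upwards [prod_mem_nhds (hu.mem_nhds hp) (hv.mem_nhds hq)]
      rintro ⟨p', q'⟩ ⟨hp', hq'⟩
      exact h p' hp' q' hq'
    apply fin
    obtain ⟨hs, hbr⟩ := hpq
    simp only [mul_s, mul_I] at hs hbr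
    rcases hbr with htop | ⟨b, hb, h1, h2⟩
    · rw [inf_eq_top_iff] at htop
      by_cases hps : p.s
      · have hqs : ¬ q.s := fun h => hs ⟨hps, h⟩
        refine ⟨_, _, isOpen_S, isOpen_R, hps, ⟨hqs, Or.inl htop.2⟩, ?_⟩
        rintro p' hp' q' ⟨hq'1, hq'2⟩
        refine ⟨fun h => hq'1 h.2, ?_⟩
        have : (p' * q').I = q'.I := by
          rw [mul_I, p'.full hp', top_inf_eq]
        rw [this]; exact hq'2
      · by_cases hqs : q.s
        · refine ⟨_, _, isOpen_R, isOpen_S, ⟨hps, Or.inl htop.1⟩, hqs, ?_⟩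
          rintro p' ⟨hp'1, hp'2⟩ q' hq'
          refine ⟨fun h => hp'1 h.1, ?_⟩
          have : (p' * q').I = p'.I := by
            rw [mul_I, q'.full hq', inf_top_eq]
          rw [this]; exact hp'2
        · refine ⟨_, _, isOpen_R, isOpen_R, ⟨hps, Or.inl htop.1⟩, ⟨hqs, Or.inl htop.2⟩, ?_⟩
          rintro p' ⟨hp'1, hp'2⟩ q' ⟨hq'1, hq'2⟩
          exact ⟨fun h => hp'1 h.1, br_inf hp'2 hq'2⟩
    · by_cases h3 : D.nx b ∉ p.I
      · exact mul_mem_R_aux hb h1 h2 h3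
      · push Not at h3
        have h4 : D.nx b ∉ q.I := fun h => h2 ⟨h3, h⟩
        have h1' : b ∈ (q * p).I := by rw [mul_comm q p]; exact h1
        have h2' : D.nx b ∉ (q * p).I := by rw [mul_comm q p]; exact h2
        obtain ⟨u, v, hu, hv, hq, hp, h⟩ := mul_mem_R_aux hb h1' h2' h4
        refine ⟨v, u, hv, hu, hp, hq, ?_⟩
        intro p' hp' q' hq'
        rw [mul_comm p' q']
        exact h q' hq' p' hp'

end Pt

end Pool.Agent.H32.Semilat
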